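import Pool.Agent.Helper75.Torus.Goals

set_option autoImplicit false

open Set MeasureTheory Matrix

namespace Pool.Agent.Helper89.TorusEVD

open Pool.Agent.Helper75.Torus
open Pool.Agent.Helper75.Flow (LipField IsFlow IsJac EulerOn curlL)

/-- expansion of a linear map in the unit vectors -/
theorem lin_expand {F : Type*} [NormedAddCommGroup F] [NormedSpace ℝ F] (L : E →L[ℝ] F) (v : E) :
    L v = ∑ i, v i • L (ee i) := by
  have h : v = ∑ i, v i • ee i := by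
    ext j
    simp [ee, Finset.sum_apply, Pi.single_apply]
  conv_lhs => rw [h, map_sum]
  simp [map_smul]

theorem alg1 (A : E →L[ℝ] E) (w : E) : A w - trn A w = crossProduct (curlL A) w := by
  have h := lin_expand A w
  have h0 := congrFun h 0
  have h1 := congrFun h 1
  have h2 := congrFun h 2
  simp only [Finset.sum_apply, Fin.sum_univ_three, Pi.smul_apply, smul_eq_mul] at h0 h1 h2
  ext i
  fin_cases i
  · simp [trn, crossProduct, curlL, ee, dotProduct, Fin.sum_univ_three] at *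
    rw [h0]; ring
  · simp [trn, crossProduct, curlL, ee, dotProduct, Fin.sum_univ_three] at *
    rw [h1]; ring
  · simp [trn, crossProduct, curlL, ee, dotProduct, Fin.sum_univ_three] at *
    rw [h2]; ring

/-- the functional `z ↦ c · z` -/
noncomputable def dL (c : E) : E →L[ℝ] ℝ :=
  ∑ k, c k • ContinuousLinearMap.proj (R := ℝ) (φ := fun _ : Fin 3 => ℝ) k

theorem dL_apply (c z : E) : dL c z = c ⬝ᵥ z := by
  simp [dL, dotProduct]

theorem cont_dot {f g : E → E} (hf : Continuous f) (hg : Continuous g) :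
    Continuous (fun Y => f Y ⬝ᵥ g Y) := by
  simp only [dotProduct]
  fun_prop

theorem integ {f : E → ℝ} (hf : Continuous f) (R : ℝ) (h : ∀ Y, R ≤ ‖Y‖ → f Y = 0) :
    Integrable f := by
  refine hf.integrable_of_hasCompactSupport ?_
  refine HasCompactSupport.intro (isCompact_closedBall (0 : E) R) fun Y hY => h Y ?_
  simp only [Metric.mem_closedBall, dist_zero_right, not_le] at hY
  exact hY.le

theorem cont_trn (J : E →L[ℝ] E) {f : E → E} (hf : Continuous f) :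
    Continuous (fun Y => trn J (f Y)) := by
  unfold trn
  refine continuous_pi fun i => ?_
  exact cont_dot hf continuous_const

theorem cont_inv3 (J : E →L[ℝ] E) {f : E → E} (hf : Continuous f) :
    Continuous (fun Y => inv3 J (f Y)) := by
  unfold inv3
  refine continuous_pi fun i => ?_
  exact cont_dot continuous_const hf

theorem cont_wr {v : E → E} (hv : ContDiff ℝ 1 v) (x : E) (lam : ℝ) (J : E →L[ℝ] E) :
    Continuous (wr v x lam J) := by
  unfold wr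
  have h := hv.continuous
  fun_prop

theorem wr_deriv {v : E → E} (hv : ContDiff ℝ 1 v) (x : E) (lam : ℝ) (J : E →L[ℝ] E) (Y : E) :
    HasFDerivAt (wr v x lam J)
      (lam⁻¹ • ((fderiv ℝ v (x + lam⁻¹ • J Y) - fderiv ℝ v x).comp J)) Y := by
  have h1 : HasFDerivAt (fun Y : E => x + lam⁻¹ • J Y) (lam⁻¹ • J) Y :=
    (J.hasFDerivAt.const_smul lam⁻¹).const_add x
  have h2 : HasFDerivAt v (fderiv ℝ v (x + lam⁻¹ • J Y)) (x + lam⁻¹ • J Y) :=
    (hv.differentiable (by norm_num) _).hasFDerivAt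
  have h3 := h2.comp Y h1
  have h4 : HasFDerivAt (fun Y : E => lam⁻¹ • fderiv ℝ v x (J Y))
      (lam⁻¹ • (fderiv ℝ v x).comp J) Y :=
    ((fderiv ℝ v x).comp J).hasFDerivAt.const_smul lam⁻¹
  have h5 := (h3.sub_const (v x)).sub h4
  refine HasFDerivAt.congr_fderiv h5 ?_
  ext z i
  simp
  ring

/-- divergence of the pulled back field -/
theorem div_zero (hCOF : G_COF) {v : E → E} (hv : ContDiff ℝ 1 v)
    (hdiv : ∀ y, ∑ i, fderiv ℝ v y (ee i) i = 0) (x : E) (lam : ℝ) (J : E →L[ℝ] E)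
    (hJ : J.det = 1) (Y : E) :
    ∑ i, fderiv ℝ (fun Y => inv3 J (wr v x lam J Y) i) Y (ee i) = 0 := by
  obtain ⟨-, -, hJi, -, -, -, -, -⟩ := hCOF J hJ
  have h1 : ∀ i, fderiv ℝ (fun Y => inv3 J (wr v x lam J Y) i) Y (ee i) =
      lam⁻¹ * (cofv J (ee i) ⬝ᵥ ((fderiv ℝ v (x + lam⁻¹ • J Y) - fderiv ℝ v x) (J (ee i)))) := by
    intro i
    have h2 : HasFDerivAt (fun Y => inv3 J (wr v x lam J Y) i)
        ((dL (cofv J (ee i))).comp
          (lam⁻¹ • ((fderiv ℝ v (x + lam⁻¹ • J Y) - fderiv ℝ v x).comp J))) Y := by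
      have h3 := (dL (cofv J (ee i))).hasFDerivAt.comp Y (wr_deriv hv x lam J Y)
      refine h3.congr_of_eventuallyEq (Filter.Eventually.of_forall fun Z => ?_)
      simp [dL_apply, inv3]
    rw [h2.fderiv]
    simp [dL_apply]
  rw [Finset.sum_congr rfl fun i _ => h1 i, ← Finset.mul_sum]
  have h4 : ∀ L : E →L[ℝ] E, ∑ i, cofv J (ee i) ⬝ᵥ (L (J (ee i))) = ∑ k, L (ee k) k := by
    intro L
    have hk : ∀ k j : Fin 3, ∑ i, cofv J (ee i) k * J (ee i) j = (ee k : E) j := by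
      intro k j
      have h5 := congrFun (hJi (ee k)) j
      rw [lin_expand J (inv3 J (ee k))] at h5
      rw [← h5]
      simp only [Finset.sum_apply, Pi.smul_apply, smul_eq_mul]
      refine Finset.sum_congr rfl fun i _ => ?_
      congr 1
      simp [inv3, ee, dotProduct, Pi.single_apply]
    calc ∑ i, cofv J (ee i) ⬝ᵥ (L (J (ee i)))
        = ∑ i, ∑ k, cofv J (ee i) k * ∑ j, J (ee i) j * L (ee j) k := by
          refine Finset.sum_congr rfl fun i _ => ?_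
          simp only [dotProduct]
          refine Finset.sum_congr rfl fun k _ => ?_
          rw [lin_expand L (J (ee i))]
          simp [Finset.sum_apply]
      _ = ∑ k, ∑ j, (∑ i, cofv J (ee i) k * J (ee i) j) * L (ee j) k := by
          rw [Finset.sum_comm]
          refine Finset.sum_congr rfl fun k _ => ?_
          simp only [Finset.mul_sum, Finset.sum_mul]
          rw [Finset.sum_comm]
          refine Finset.sum_congr rfl fun j _ => Finset.sum_congr rfl fun i _ => ?_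
          ring
      _ = ∑ k, L (ee k) k := by
          refine Finset.sum_congr rfl fun k _ => ?_
          simp only [hk]
          simp [ee, Pi.single_apply]
  rw [h4]
  simp only [_root_.sub_apply, Pi.sub_apply, Finset.sum_sub_distrib, hdiv]
  simp

/-- moments: a test field with vanishing moments does not see affine fields -/
theorem mom {ψ : E → E} (hψ : Continuous ψ) (R : ℝ) (hR : ∀ Y, R ≤ ‖Y‖ → ψ Y = 0)
    (h0 : ∀ i, ∫ Y, ψ Y i = 0) (h1 : ∀ i j, ∫ Y : E, Y j * ψ Y i = 0) (c : E)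
    (L J : E →L[ℝ] E) : ∫ Y, (c + L Y) ⬝ᵥ J (ψ Y) = 0 := by
  have hc : ∀ i, Continuous (fun Y => ψ Y i) := fun i => (continuous_apply i).comp hψ
  have e : ∀ Y, (c + L Y) ⬝ᵥ J (ψ Y) = (∑ i, (c ⬝ᵥ J (ee i)) * ψ Y i) +
      ∑ j, ∑ i, (L (ee j) ⬝ᵥ J (ee i)) * (Y j * ψ Y i) := by
    intro Y
    rw [add_dotProduct]
    congr 1
    · rw [lin_expand J (ψ Y), dotProduct_sum]
      refine Finset.sum_congr rfl fun i _ => ?_
      rw [dotProduct_smul, smul_eq_mul, mul_comm]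
    · rw [lin_expand L Y, sum_dotProduct]
      refine Finset.sum_congr rfl fun j _ => ?_
      rw [lin_expand J (ψ Y), dotProduct_sum]
      refine Finset.sum_congr rfl fun i _ => ?_
      rw [dotProduct_smul, smul_dotProduct, smul_eq_mul, smul_eq_mul]
      ring
  have i0 : ∀ i, Integrable (fun Y => (c ⬝ᵥ J (ee i)) * ψ Y i) := by
    intro i
    refine integ (continuous_const.mul (hc i)) R fun Y hY => ?_
    rw [hR Y hY]; simp
  have i1 : ∀ j i, Integrable (fun Y : E => (L (ee j) ⬝ᵥ J (ee i)) * (Y j * ψ Y i)) := by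
    intro j i
    refine integ (continuous_const.mul ((continuous_apply j).mul (hc i))) R fun Y hY => ?_
    rw [hR Y hY]; simp
  rw [integral_congr_ae (Filter.Eventually.of_forall e), integral_add
    (integrable_finsetSum _ fun i _ => i0 i)
    (integrable_finsetSum _ fun j _ => integrable_finsetSum _ fun i _ => i1 j i),
    integral_finsetSum _ fun i _ => i0 i,
    integral_finsetSum _ fun j _ => integrable_finsetSum _ fun i _ => i1 j i]
  rw [Finset.sum_eq_zero, Finset.sum_eq_zero, add_zero]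
  · intro j _
    rw [integral_finsetSum _ fun i _ => i1 j i]
    refine Finset.sum_eq_zero fun i _ => ?_
    rw [integral_const_mul, h1, mul_zero]
  · intro i _
    rw [integral_const_mul, h0, mul_zero]

theorem dot_J (hCOF : G_COF) (J : E →L[ℝ] E) (hJ : J.det = 1) (w z : E) :
    w ⬝ᵥ J z = inv3 J w ⬝ᵥ trn J (J z) := by
  obtain ⟨-, -, hJi, -, -, -, htr, -⟩ := hCOF J hJ
  rw [dotProduct_comm (inv3 J w), htr, hJi, dotProduct_comm]

theorem dot_A (hCOF : G_COF) (A J : E →L[ℝ] E) (hJ : J.det = 1) (om w z : E)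
    (h : curlL A = J om) :
    (trn A w - A w) ⬝ᵥ J z = inv3 J w ⬝ᵥ crossProduct om z := by
  obtain ⟨hc1, hc2, hJi, -, -, -, -, -⟩ := hCOF J hJ
  have h1 : trn A w - A w = -cofv J (crossProduct om (inv3 J w)) := by
    rw [← hc2, hJi, ← h, ← alg1]
    abel
  rw [h1, neg_dotProduct, hc1]
  simp [crossProduct, dotProduct, Fin.sum_univ_three]
  ring

theorem trn_lin (J : E →L[ℝ] E) (a c : ℝ) (z z' : E) :
    trn J (a • z - c • z') = a • trn J z - c • trn J z' := by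
  ext i
  simp [trn, sub_dotProduct, smul_dotProduct]

/-- the scalar test function -/
noncomputable def hf (η : E → ℝ) (κ : E) (δ τ : ℝ) (Y : E) : ℝ :=
  th η κ δ Y * Real.sin (κ ⬝ᵥ Y + τ)

theorem sin_deriv (κ : E) (τ : ℝ) (Y : E) :
    HasFDerivAt (fun Y => Real.sin (κ ⬝ᵥ Y + τ)) (Real.cos (κ ⬝ᵥ Y + τ) • dL κ) Y := by
  have h : HasFDerivAt (fun Y => κ ⬝ᵥ Y + τ) (dL κ) Y := by
    have h1 := ((dL κ).hasFDerivAt (x := Y)).add_const τ
    refine h1.congr_of_eventuallyEq (Filter.Eventually.of_forall fun Z => ?_)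
    simp [dL_apply]
  exact h.sin

theorem hf_deriv {η : E → ℝ} {κ : E} {δ : ℝ} (τ : ℝ) (hth : Differentiable ℝ (th η κ δ)) (Y : E)
    (i : Fin 3) :
    fderiv ℝ (hf η κ δ τ) Y (ee i) = gth η κ δ Y i * Real.sin (κ ⬝ᵥ Y + τ) +
      th η κ δ Y * Real.cos (κ ⬝ᵥ Y + τ) * κ i := by
  have h := (hth Y).hasFDerivAt.mul (sin_deriv κ τ Y)
  have h2 : HasFDerivAt (hf η κ δ τ) (th η κ δ Y • Real.cos (κ ⬝ᵥ Y + τ) • dL κ +
      Real.sin (κ ⬝ᵥ Y + τ) • fderiv ℝ (th η κ δ) Y) Y := h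
  rw [h2.fderiv]
  have h3 : dL κ (ee i) = κ i := by
    rw [dL_apply]; simp [ee, dotProduct, Pi.single_apply]
  simp only [_root_.add_apply, _root_.smul_apply, smul_eq_mul, h3]
  simp only [gth, pd, ee]
  ring

theorem int_zero (hT1A : G_T1A) (hCOF : G_COF)
    {η : E → ℝ} (hη : Bump η) {κ : E} (hκ : κ ⬝ᵥ κ = 1) {δ : ℝ} (hδ : δ ∈ Ioc (0 : ℝ) 1) (τ : ℝ)
    {v : E → E} (hv : ContDiff ℝ 1 v) (hdiv : ∀ y, ∑ i, fderiv ℝ v y (ee i) i = 0)
    (x : E) (J : E →L[ℝ] E) (hJ : J.det = 1) (lam : ℝ) :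
    Integrable (fun Y => ∑ i, inv3 J (wr v x lam J Y) i * fderiv ℝ (hf η κ δ τ) Y (ee i)) ∧
    ∫ Y, ∑ i, inv3 J (wr v x lam J Y) i * fderiv ℝ (hf η κ δ τ) Y (ee i) = 0 := by
  obtain ⟨⟨R, hR⟩, hA2⟩ := hT1A η κ hη hκ
  obtain ⟨-, hth3, -, -, -, -⟩ := hA2 δ hδ τ
  have hth0 : ∀ Y, R / δ ≤ ‖Y‖ → th η κ δ Y = 0 := fun Y hY => (hR δ hδ τ 0 Y hY).2.2.1
  have hg0 : ∀ Y, R / δ ≤ ‖Y‖ → gth η κ δ Y = 0 := fun Y hY => (hR δ hδ τ 0 Y hY).2.2.2.1
  have hthd : Differentiable ℝ (th η κ δ) := hth3.differentiable (by norm_num)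
  have hh1 : ContDiff ℝ 1 (hf η κ δ τ) := by
    have h1 : ContDiff ℝ 1 (fun Y : E => Real.sin (κ ⬝ᵥ Y + τ)) := by
      have h2 : ContDiff ℝ 1 (fun Y : E => Real.sin (dL κ Y + τ)) := by fun_prop
      simpa only [dL_apply] using h2
    exact (hth3.of_le (by norm_num)).mul h1
  have hhd : Differentiable ℝ (hf η κ δ τ) := hh1.differentiable (by norm_num)
  have hh0 : ∀ Y, R / δ ≤ ‖Y‖ → hf η κ δ τ Y = 0 := by
    intro Y hY; simp [hf, hth0 Y hY]
  have hdh0 : ∀ Y, R / δ ≤ ‖Y‖ → ∀ i, fderiv ℝ (hf η κ δ τ) Y (ee i) = 0 := by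
    intro Y hY i
    rw [hf_deriv τ hthd, hth0 Y hY, hg0 Y hY]; simp
  have hdhc : ∀ i, Continuous (fun Y => fderiv ℝ (hf η κ δ τ) Y (ee i)) := fun i =>
    (hh1.continuous_fderiv (by norm_num)).clm_apply continuous_const
  have hUc : ∀ i, Continuous (fun Y => inv3 J (wr v x lam J Y) i) := fun i =>
    (continuous_apply i).comp (cont_inv3 J (cont_wr hv x lam J))
  have hU1 : ∀ i, ContDiff ℝ 1 (fun Y => inv3 J (wr v x lam J Y) i) := by
    intro i
    have h1 : ContDiff ℝ 1 (fun Y => dL (cofv J (ee i)) (wr v x lam J Y)) := by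
      refine (dL (cofv J (ee i))).contDiff.comp ?_
      unfold wr
      have h2 : ContDiff ℝ 1 (fun Y : E => x + lam⁻¹ • J Y) := by fun_prop
      have h3 := hv.comp h2
      have h4 : ContDiff ℝ 1 (fun Y : E => lam⁻¹ • fderiv ℝ v x (J Y)) := by fun_prop
      exact (h3.sub contDiff_const).sub h4
    have h5 : (fun Y => inv3 J (wr v x lam J Y) i) =
        fun Y => dL (cofv J (ee i)) (wr v x lam J Y) := by
      funext Y
      rw [dL_apply]
      rfl
    rw [h5]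
    exact h1
  have hUd : ∀ i, Continuous (fun Y => fderiv ℝ (fun Y => inv3 J (wr v x lam J Y) i) Y (ee i)) :=
    fun i => ((hU1 i).continuous_fderiv (by norm_num)).clm_apply continuous_const
  have iA : ∀ i, Integrable
      (fun Y => inv3 J (wr v x lam J Y) i * fderiv ℝ (hf η κ δ τ) Y (ee i)) := by
    intro i
    refine integ ((hUc i).mul (hdhc i)) (R / δ) fun Y hY => ?_
    rw [hdh0 Y hY, mul_zero]
  have iB : ∀ i, Integrable (fun Y => fderiv ℝ (fun Y => inv3 J (wr v x lam J Y) i) Y (ee i) *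
      hf η κ δ τ Y) := by
    intro i
    refine integ ((hUd i).mul hh1.continuous) (R / δ) fun Y hY => ?_
    rw [hh0 Y hY, mul_zero]
  have iC : ∀ i, Integrable (fun Y => inv3 J (wr v x lam J Y) i * hf η κ δ τ Y) := by
    intro i
    refine integ ((hUc i).mul hh1.continuous) (R / δ) fun Y hY => ?_
    rw [hh0 Y hY, mul_zero]
  refine ⟨integrable_finsetSum _ fun i _ => iA i, ?_⟩
  rw [integral_finsetSum _ fun i _ => iA i]
  have h1 : ∀ i, ∫ Y, inv3 J (wr v x lam J Y) i * fderiv ℝ (hf η κ δ τ) Y (ee i) =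
      -∫ Y, fderiv ℝ (fun Y => inv3 J (wr v x lam J Y) i) Y (ee i) * hf η κ δ τ Y := fun i =>
    integral_mul_fderiv_eq_neg_fderiv_mul_of_integrable (iB i) (iA i) (iC i)
      (fun y _ => (hU1 i).differentiable (by norm_num) y) (fun y _ => hhd y)
  rw [Finset.sum_congr rfl fun i _ => h1 i, Finset.sum_neg_distrib,
    ← integral_finsetSum _ fun i _ => iB i, neg_eq_zero]
  have h2 : ∀ Y, ∑ i, fderiv ℝ (fun Y => inv3 J (wr v x lam J Y) i) Y (ee i) * hf η κ δ τ Y = 0 := by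
    intro Y
    rw [← Finset.sum_mul, div_zero hCOF hv hdiv x lam J hJ Y, zero_mul]
  rw [integral_congr_ae (Filter.Eventually.of_forall h2), integral_zero]

/-- the static identity -/
theorem static (hT1A : G_T1A) (hT1B : G_T1B) (hALG : G_ALG) (hCOF : G_COF)
    {η : E → ℝ} (hη : Bump η) {κ : E} (hκ : κ ⬝ᵥ κ = 1) {δ : ℝ} (hδ : δ ∈ Ioc (0 : ℝ) 1) (τ : ℝ)
    {v : E → E} (hv : ContDiff ℝ 1 v) (hdiv : ∀ y, ∑ i, fderiv ℝ v y (ee i) i = 0)
    (x om b : E) (J : E →L[ℝ] E) (hJ : J.det = 1) (hvort : curlL (fderiv ℝ v x) = J om)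
    (lam : ℝ) (hb : κ ⬝ᵥ b = 0) :
    ∑ l, (bRHS (κ ⬝ᵥ om) J κ b l * (∫ Y, v (x + lam⁻¹ • J Y) ⬝ᵥ J (Tf η κ δ τ (ee l) Y)) +
      b l * ∫ Y, ((trn (fderiv ℝ v x) (wr v x lam J Y) - fderiv ℝ v x (wr v x lam J Y)) ⬝ᵥ
          J (Tf η κ δ τ (ee l) Y) +
        lam * (wr v x lam J Y ⬝ᵥ
          J (fderiv ℝ (Tf η κ δ τ (ee l)) Y (inv3 J (wr v x lam J Y)))))) =
      rhs η v x om κ J lam δ τ b (bRHS (κ ⬝ᵥ om) J κ b) := by
  obtain ⟨hIi, hI0⟩ := int_zero hT1A hCOF hη hκ hδ τ hv hdiv x J hJ lam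
  obtain ⟨⟨R, hR⟩, hA2⟩ := hT1A η κ hη hκ
  obtain ⟨hsm, hth3, -, hlin, hform, -⟩ := hA2 δ hδ τ
  have hT0 : ∀ b Y, R / δ ≤ ‖Y‖ → Tf η κ δ τ b Y = 0 := fun b Y hY => (hR δ hδ τ b Y hY).1
  have hD0 : ∀ b Y, R / δ ≤ ‖Y‖ → fderiv ℝ (Tf η κ δ τ b) Y = 0 := fun b Y hY =>
    (hR δ hδ τ b Y hY).2.1
  have hthd : Differentiable ℝ (th η κ δ) := hth3.differentiable (by norm_num)
  have hTc : ∀ b, Continuous (Tf η κ δ τ b) := fun b => (hsm b).1.continuous
  have hDc : ∀ b, Continuous (fderiv ℝ (Tf η κ δ τ b)) := fun b =>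
    (hsm b).1.continuous_fderiv (by norm_num)
  have hwc := cont_wr hv x lam J
  have hUc := cont_inv3 J hwc
  generalize hb'def : bRHS (κ ⬝ᵥ om) J κ b = b'
  have hb' : κ ⬝ᵥ b' = 0 := by
    rw [← hb'def]; unfold bRHS
    rw [dotProduct_smul, dot_self_cross, smul_zero]
  have hmu := hALG J κ om b hJ hκ hb
  rw [hb'def] at hmu
  -- replace the velocity by the remainder
  have e1 : ∀ l, ∫ Y, v (x + lam⁻¹ • J Y) ⬝ᵥ J (Tf η κ δ τ (ee l) Y) =
      ∫ Y, wr v x lam J Y ⬝ᵥ J (Tf η κ δ τ (ee l) Y) := by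
    intro l
    obtain ⟨-, hm0, hm1⟩ := hT1B η κ hη hκ δ hδ τ (ee l)
    have h0 := mom (hTc (ee l)) (R / δ) (hT0 (ee l)) hm0 hm1 (v x)
      (lam⁻¹ • (fderiv ℝ v x).comp J) J
    have e : ∀ Y, v (x + lam⁻¹ • J Y) ⬝ᵥ J (Tf η κ δ τ (ee l) Y) =
        wr v x lam J Y ⬝ᵥ J (Tf η κ δ τ (ee l) Y) +
          (v x + (lam⁻¹ • (fderiv ℝ v x).comp J) Y) ⬝ᵥ J (Tf η κ δ τ (ee l) Y) := by
      intro Y
      rw [← add_dotProduct]
      congr 1
      simp [wr]
    rw [integral_congr_ae (Filter.Eventually.of_forall e), integral_add, h0, add_zero]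
    · refine integ (cont_dot hwc (J.continuous.comp (hTc _))) (R / δ) fun Y hY => ?_
      rw [hT0 _ Y hY]; simp
    · refine integ (cont_dot (continuous_const.add (ContinuousLinearMap.continuous _))
        (J.continuous.comp (hTc _))) (R / δ) fun Y hY => ?_
      rw [hT0 _ Y hY]; simp
  -- integrability
  have i1 : ∀ l, Integrable (fun Y => b' l * (wr v x lam J Y ⬝ᵥ J (Tf η κ δ τ (ee l) Y))) := by
    intro l
    refine integ (continuous_const.mul (cont_dot hwc (J.continuous.comp (hTc _)))) (R / δ)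
      fun Y hY => ?_
    rw [hT0 _ Y hY]; simp
  have i2 : ∀ l, Integrable (fun Y => b l *
      ((trn (fderiv ℝ v x) (wr v x lam J Y) - fderiv ℝ v x (wr v x lam J Y)) ⬝ᵥ
          J (Tf η κ δ τ (ee l) Y) +
        lam * (wr v x lam J Y ⬝ᵥ
          J (fderiv ℝ (Tf η κ δ τ (ee l)) Y (inv3 J (wr v x lam J Y)))))) := by
    intro l
    refine integ (continuous_const.mul ((cont_dot ((cont_trn _ hwc).sub
      ((ContinuousLinearMap.continuous _).comp hwc)) (J.continuous.comp (hTc _))).add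
      (continuous_const.mul (cont_dot hwc (J.continuous.comp ((hDc _).clm_apply hUc))))))
      (R / δ) fun Y hY => ?_
    rw [hT0 _ Y hY, hD0 _ Y hY]; simp
  have i12 : ∀ l, Integrable (fun Y => b' l * (wr v x lam J Y ⬝ᵥ J (Tf η κ δ τ (ee l) Y)) +
        b l * ((trn (fderiv ℝ v x) (wr v x lam J Y) - fderiv ℝ v x (wr v x lam J Y)) ⬝ᵥ
          J (Tf η κ δ τ (ee l) Y) +
        lam * (wr v x lam J Y ⬝ᵥ
          J (fderiv ℝ (Tf η κ δ τ (ee l)) Y (inv3 J (wr v x lam J Y)))))) := fun l =>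
    (i1 l).add (i2 l)
  have e2 : ∑ l, (b' l * (∫ Y, v (x + lam⁻¹ • J Y) ⬝ᵥ J (Tf η κ δ τ (ee l) Y)) +
      b l * ∫ Y, ((trn (fderiv ℝ v x) (wr v x lam J Y) - fderiv ℝ v x (wr v x lam J Y)) ⬝ᵥ
          J (Tf η κ δ τ (ee l) Y) +
        lam * (wr v x lam J Y ⬝ᵥ
          J (fderiv ℝ (Tf η κ δ τ (ee l)) Y (inv3 J (wr v x lam J Y)))))) =
      ∫ Y, ∑ l, (b' l * (wr v x lam J Y ⬝ᵥ J (Tf η κ δ τ (ee l) Y)) +
        b l * ((trn (fderiv ℝ v x) (wr v x lam J Y) - fderiv ℝ v x (wr v x lam J Y)) ⬝ᵥ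
          J (Tf η κ δ τ (ee l) Y) +
        lam * (wr v x lam J Y ⬝ᵥ
          J (fderiv ℝ (Tf η κ δ τ (ee l)) Y (inv3 J (wr v x lam J Y)))))) := by
    rw [integral_finsetSum _ fun l _ => i12 l]
    refine Finset.sum_congr rfl fun l _ => ?_
    rw [integral_add (i1 l) (i2 l), integral_const_mul, integral_const_mul, e1]
  rw [e2]
  -- pointwise identity
  have hDlin : ∀ b Y U, fderiv ℝ (Tf η κ δ τ b) Y U =
      ∑ l, b l • fderiv ℝ (Tf η κ δ τ (ee l)) Y U := by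
    intro b Y U
    have h1 : HasFDerivAt (fun Y => ∑ l, b l • Tf η κ δ τ (ee l) Y)
        (∑ l, b l • fderiv ℝ (Tf η κ δ τ (ee l)) Y) Y := by
      refine HasFDerivAt.fun_sum fun l _ => ?_
      exact ((hsm (ee l)).1.differentiable (by norm_num) Y).hasFDerivAt.const_smul (b l)
    have h2 : HasFDerivAt (Tf η κ δ τ b)
        (∑ l, b l • fderiv ℝ (Tf η κ δ τ (ee l)) Y) Y :=
      h1.congr_of_eventuallyEq (Filter.Eventually.of_forall fun Z => hlin b Z)
    rw [h2.fderiv]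
    simp
  have key : ∀ Y, (-(Real.sin (κ ⬝ᵥ Y + τ) * (inv3 J (wr v x lam J Y) ⬝ᵥ
      ((κ ⬝ᵥ (trn J (J b') + crossProduct om b)) • gth η κ δ Y +
        trn J (J (crossProduct (gth η κ δ Y) (crossProduct κ b'))) +
        crossProduct om (crossProduct (gth η κ δ Y) (crossProduct κ b))))) +
    lam * (wr v x lam J Y ⬝ᵥ J (fderiv ℝ (Tf η κ δ τ b) Y (inv3 J (wr v x lam J Y))))) =
    (∑ l, (b' l * (wr v x lam J Y ⬝ᵥ J (Tf η κ δ τ (ee l) Y)) +
        b l * ((trn (fderiv ℝ v x) (wr v x lam J Y) - fderiv ℝ v x (wr v x lam J Y)) ⬝ᵥ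
          J (Tf η κ δ τ (ee l) Y) +
        lam * (wr v x lam J Y ⬝ᵥ
          J (fderiv ℝ (Tf η κ δ τ (ee l)) Y (inv3 J (wr v x lam J Y))))))) -
    (κ ⬝ᵥ (trn J (J b') + crossProduct om b)) *
      ∑ i, inv3 J (wr v x lam J Y) i * fderiv ℝ (hf η κ δ τ) Y (ee i) := by
    intro Y
    have s1 : ∀ a : E, ∑ l, b' l * (a ⬝ᵥ J (Tf η κ δ τ (ee l) Y)) = a ⬝ᵥ J (Tf η κ δ τ b' Y) := by
      intro a
      rw [hlin b' Y, map_sum, dotProduct_sum]
      refine Finset.sum_congr rfl fun l _ => ?_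
      rw [map_smul, dotProduct_smul, smul_eq_mul]
    have s2 : ∀ a : E, ∑ l, b l * (a ⬝ᵥ J (Tf η κ δ τ (ee l) Y)) = a ⬝ᵥ J (Tf η κ δ τ b Y) := by
      intro a
      rw [hlin b Y, map_sum, dotProduct_sum]
      refine Finset.sum_congr rfl fun l _ => ?_
      rw [map_smul, dotProduct_smul, smul_eq_mul]
    have s3 : ∀ a U : E, ∑ l, b l * (lam * (a ⬝ᵥ J (fderiv ℝ (Tf η κ δ τ (ee l)) Y U))) =
        lam * (a ⬝ᵥ J (fderiv ℝ (Tf η κ δ τ b) Y U)) := by
      intro a U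
      rw [hDlin b Y U, map_sum, dotProduct_sum, Finset.mul_sum]
      refine Finset.sum_congr rfl fun l _ => ?_
      rw [map_smul, dotProduct_smul, smul_eq_mul]
      ring
    have s4 : ∑ l, (b' l * (wr v x lam J Y ⬝ᵥ J (Tf η κ δ τ (ee l) Y)) +
        b l * ((trn (fderiv ℝ v x) (wr v x lam J Y) - fderiv ℝ v x (wr v x lam J Y)) ⬝ᵥ
          J (Tf η κ δ τ (ee l) Y) +
        lam * (wr v x lam J Y ⬝ᵥ
          J (fderiv ℝ (Tf η κ δ τ (ee l)) Y (inv3 J (wr v x lam J Y)))))) =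
        wr v x lam J Y ⬝ᵥ J (Tf η κ δ τ b' Y) +
        ((trn (fderiv ℝ v x) (wr v x lam J Y) - fderiv ℝ v x (wr v x lam J Y)) ⬝ᵥ
          J (Tf η κ δ τ b Y) +
        lam * (wr v x lam J Y ⬝ᵥ
          J (fderiv ℝ (Tf η κ δ τ b) Y (inv3 J (wr v x lam J Y))))) := by
      rw [Finset.sum_add_distrib, s1]
      congr 1
      simp only [mul_add]
      rw [Finset.sum_add_distrib, s2, s3]
    rw [s4, dot_J hCOF J hJ (wr v x lam J Y) (Tf η κ δ τ b' Y), dot_A hCOF _ J hJ om _ _ hvort,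
      hform b' Y hb', hform b Y hb]
    have s5 : ∑ i, inv3 J (wr v x lam J Y) i * fderiv ℝ (hf η κ δ τ) Y (ee i) =
        Real.sin (κ ⬝ᵥ Y + τ) * (inv3 J (wr v x lam J Y) ⬝ᵥ gth η κ δ Y) +
        th η κ δ Y * Real.cos (κ ⬝ᵥ Y + τ) * (inv3 J (wr v x lam J Y) ⬝ᵥ κ) := by
      simp only [hf_deriv τ hthd, dotProduct, Finset.mul_sum]
      rw [← Finset.sum_add_distrib]
      refine Finset.sum_congr rfl fun i _ => ?_
      ring
    rw [s5]
    generalize lam * (wr v x lam J Y ⬝ᵥ J (fderiv ℝ (Tf η κ δ τ b) Y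
      (inv3 J (wr v x lam J Y)))) = q
    generalize inv3 J (wr v x lam J Y) = U
    have s6 : U ⬝ᵥ trn J (J b') + U ⬝ᵥ crossProduct om b =
        (κ ⬝ᵥ (trn J (J b') + crossProduct om b)) * (U ⬝ᵥ κ) := by
      rw [← dotProduct_add, hmu, dotProduct_smul, smul_eq_mul]
      congr 1
      rw [← hmu]
    rw [map_sub, map_smul, map_smul, trn_lin, map_sub, map_smul, map_smul]
    simp only [dotProduct_add, dotProduct_sub, dotProduct_smul, smul_eq_mul]
    simp only [dotProduct_add] at s6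
    linear_combination (-(th η κ δ Y * Real.cos (κ ⬝ᵥ Y + τ))) * s6
  unfold rhs
  rw [integral_congr_ae (Filter.Eventually.of_forall key), integral_sub, integral_const_mul, hI0,
    mul_zero, sub_zero]
  · exact integrable_finsetSum _ fun l _ => i12 l
  · exact hIi.const_mul _

theorem thm (hEV : G_EV) (hT1A : G_T1A) (hT1B : G_T1B) (hALG : G_ALG) (hB2 : G_BETA2)
    (hCOF : G_COF) : G_EVD := by
  intro α t K u g p φ J η ht hL hη X κ lam δ τ β hκ hlam hδ hβ s hs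
  have hv : ∀ σ ∈ Icc 0 t, ContDiff ℝ 1 (u σ) := fun σ hσ =>
    contDiff_pi.2 fun i => (hL.hol σ hσ i).1
  obtain ⟨-, -, -, -, -, hdivE, -⟩ := hL.euler
  have hdiv : ∀ σ ∈ Icc 0 t, ∀ y, ∑ i, fderiv ℝ (u σ) y (ee i) i = 0 := fun σ hσ y =>
    hdivE σ hσ y (mem_univ y)
  have hJc : ContinuousOn (fun σ => J σ X) (Icc 0 t) := by
    have h1 : ContinuousOn (fun σ : ℝ => ((σ, X) : ℝ × E)) (Icc 0 t) := by fun_prop
    exact hL.jcont.comp h1 fun σ hσ => ⟨hσ, mem_univ _⟩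
  have hdet : ∀ σ ∈ Icc 0 t, (J σ X).det = 1 := hL.jdet X
  have hβ0 : ∀ σ ∈ Icc 0 t, κ ⬝ᵥ β σ = 0 := fun σ hσ =>
    (hB2 t (fun σ => J σ X) κ _ β β ht hJc hdet hκ hβ hβ σ hσ).1
  have hA := hT1A η κ hη hκ
  obtain ⟨⟨R, hR⟩, hA2⟩ := hA
  obtain ⟨hsm, -, -, hlin, -, -⟩ := hA2 δ hδ τ
  -- the derivative of each component
  have hD : ∀ l : Fin 3, HasDerivWithinAt
      (fun σ => β σ l * ∫ Y, u σ (φ σ X + lam⁻¹ • J σ X Y) ⬝ᵥ J σ X (Tf η κ δ τ (ee l) Y))
      (bRHS (κ ⬝ᵥ curlL (fderiv ℝ (u 0) X)) (J s X) κ (β s) l *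
        (∫ Y, u s (φ s X + lam⁻¹ • J s X Y) ⬝ᵥ J s X (Tf η κ δ τ (ee l) Y)) +
      β s l * ∫ Y, ((trn (fderiv ℝ (u s) (φ s X)) (wr (u s) (φ s X) lam (J s X) Y) -
          fderiv ℝ (u s) (φ s X) (wr (u s) (φ s X) lam (J s X) Y)) ⬝ᵥ
            J s X (Tf η κ δ τ (ee l) Y) +
        lam * (wr (u s) (φ s X) lam (J s X) Y ⬝ᵥ
          J s X (fderiv ℝ (Tf η κ δ τ (ee l)) Y
            (inv3 (J s X) (wr (u s) (φ s X) lam (J s X) Y))))))
      (Icc 0 t) s := by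
    intro l
    obtain ⟨hdv, hm0, hm1⟩ := hT1B η κ hη hκ δ hδ τ (ee l)
    have h1 := hEV α t K u g p φ J ht hL X lam (Tf η κ δ τ (ee l)) hlam
      ((hsm (ee l)).1.of_le (by norm_num)) (hsm (ee l)).2.1 hdv hm0 hm1 s hs
    have h2 := hasDerivWithinAt_pi.1 (hβ.1 s hs) l
    exact h2.mul h1
  have hsum := HasDerivWithinAt.fun_sum (u := Finset.univ) fun l _ => hD l
  rw [static hT1A hT1B hALG hCOF hη hκ hδ τ (hv s hs) (hdiv s hs) (φ s X)
    (curlL (fderiv ℝ (u 0) X)) (β s) (J s X) (hdet s hs) (hL.vort X s hs) lam (hβ0 s hs)] at hsum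
  have heq : ∀ σ ∈ Icc 0 t,
      ∫ Y, u σ (φ σ X + lam⁻¹ • J σ X Y) ⬝ᵥ J σ X (Tf η κ δ τ (β σ) Y) =
      ∑ l, β σ l * ∫ Y, u σ (φ σ X + lam⁻¹ • J σ X Y) ⬝ᵥ J σ X (Tf η κ δ τ (ee l) Y) := by
    intro σ hσ
    have i1 : ∀ l : Fin 3, Integrable (fun Y => β σ l *
        (u σ (φ σ X + lam⁻¹ • J σ X Y) ⬝ᵥ J σ X (Tf η κ δ τ (ee l) Y))) := by
      intro l
      have hc1 : Continuous (fun Y => u σ (φ σ X + lam⁻¹ • J σ X Y)) := by
        have := (hv σ hσ).continuous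
        fun_prop
      refine integ (continuous_const.mul (cont_dot hc1
        ((J σ X).continuous.comp (hsm (ee l)).1.continuous))) (R / δ) fun Y hY => ?_
      rw [(hR δ hδ τ (ee l) Y hY).1]; simp
    have e : ∀ Y, u σ (φ σ X + lam⁻¹ • J σ X Y) ⬝ᵥ J σ X (Tf η κ δ τ (β σ) Y) =
        ∑ l, β σ l * (u σ (φ σ X + lam⁻¹ • J σ X Y) ⬝ᵥ J σ X (Tf η κ δ τ (ee l) Y)) := by
      intro Y
      rw [hlin (β σ) Y, map_sum, dotProduct_sum]
      refine Finset.sum_congr rfl fun l _ => ?_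
      rw [map_smul, dotProduct_smul, smul_eq_mul]
    rw [integral_congr_ae (Filter.Eventually.of_forall e), integral_finsetSum _ fun l _ => i1 l]
    refine Finset.sum_congr rfl fun l _ => ?_
    rw [integral_const_mul]
  exact hsum.congr heq (heq s hs)

end Pool.Agent.Helper89.TorusEVD
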